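import Mathlib

set_option autoImplicit false

namespace Pool.Agent.Results.MP_e68b86_nt.EmptyOrInfinite

open Polynomial

/-- The recursion S(1) = s, S(n) = |S(n-1) - gcd(S(n-1), P(n))| for n at least 2
(the value at index 0 is a dummy). -/
noncomputable def recSeq (P : Polynomial ℤ) (s : ℕ) : ℕ → ℤ
  | 0 => (s : ℤ)
  | 1 => (s : ℤ)
  | (n + 2) =>
      |recSeq P s (n + 1) - (Int.gcd (recSeq P s (n + 1)) (P.eval ((n + 2 : ℕ) : ℤ)) : ℤ)|

/-- An integer is a positive rational prime. -/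
def PosPrime (z : ℤ) : Prop := 0 < z ∧ z.natAbs.Prime

/-- s is good for the family Q, where P is the product of the family. -/
def Good (m : ℕ) (Q : Fin m → Polynomial ℤ) (s : ℕ) : Prop :=
  (∀ N : ℕ, ∃ n : ℕ, N ≤ n ∧ 1 ≤ n ∧ recSeq (∏ j, Q j) s n = 0) ∧
  (∀ n : ℕ, 2 ≤ n → recSeq (∏ j, Q j) s n = 0 →
    ∀ j, PosPrime ((Q j).eval ((n + 1 : ℕ) : ℤ)))

/-- The hypotheses of the problem on the family Q (m at least 1): irreducible nonconstant integer
polynomials with positive prime values at the same arguments, infinitely often. -/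
structure Adm (m : ℕ) (Q : Fin m → Polynomial ℤ) : Prop where
  pos : 1 ≤ m
  irr : ∀ j, Irreducible (Q j)
  deg : ∀ j, 1 ≤ (Q j).natDegree
  prm : ∀ K : ℕ, ∃ k : ℕ, K ≤ k ∧ 0 < k ∧ ∀ j, PosPrime ((Q j).eval (k : ℤ))

private theorem eoi_nonneg (P : Polynomial ℤ) (s : ℕ) : ∀ n, 0 ≤ recSeq P s n
  | 0 => by rw [recSeq]; positivity
  | 1 => by rw [recSeq]; positivity
  | (n + 2) => by rw [recSeq]; positivity

private theorem eoi_step (P : Polynomial ℤ) (s n : ℕ) (h : 0 < recSeq P s (n + 1)) :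
    recSeq P s (n + 2) < recSeq P s (n + 1) := by
  rw [recSeq]
  have h1 : 0 < Int.gcd (recSeq P s (n + 1)) (P.eval ((n + 2 : ℕ) : ℤ)) :=
    Int.gcd_pos_of_ne_zero_left _ h.ne'
  have h2 : (Int.gcd (recSeq P s (n + 1)) (P.eval ((n + 2 : ℕ) : ℤ)) : ℤ) ≤ recSeq P s (n + 1) :=
    Int.le_of_dvd h (Int.gcd_dvd_left _ _)
  have h3 : (0 : ℤ) < (Int.gcd (recSeq P s (n + 1)) (P.eval ((n + 2 : ℕ) : ℤ)) : ℤ) := by
    exact_mod_cast h1
  rw [abs_of_nonneg (by linarith)]
  linarith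

/-- the zeros are infinite in number -/
private theorem eoi_inf (P : Polynomial ℤ) (s : ℕ) (N : ℕ) :
    ∃ n : ℕ, N ≤ n ∧ 1 ≤ n ∧ recSeq P s n = 0 := by
  have key : ∀ (k : ℕ) (n : ℕ), (recSeq P s (n + 1)).toNat ≤ k →
      ∃ i : ℕ, n + 1 ≤ i ∧ recSeq P s i = 0 := by
    intro k
    induction k with
    | zero =>
      intro n hn
      refine ⟨n + 1, le_rfl, ?_⟩
      have := eoi_nonneg P s (n + 1)
      omega
    | succ k ih =>
      intro n hn
      by_cases h0 : recSeq P s (n + 1) = 0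
      · exact ⟨n + 1, le_rfl, h0⟩
      · have h1 := eoi_nonneg P s (n + 1)
        have h2 := eoi_step P s n (lt_of_le_of_ne h1 (Ne.symm h0))
        have h3 := eoi_nonneg P s (n + 2)
        obtain ⟨i, hi, hi'⟩ := ih (n + 1) (by
          change (recSeq P s (n + 2)).toNat ≤ k
          omega)
        exact ⟨i, by omega, hi'⟩
  obtain ⟨i, hi, hi'⟩ := key _ N le_rfl
  exact ⟨i, by omega, by omega, hi'⟩

/-- two orbits which meet stay together -/
private theorem eoi_tail (P : Polynomial ℤ) (s s' n : ℕ)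
    (h : recSeq P s (n + 1) = recSeq P s' (n + 1)) :
    ∀ k, recSeq P s (n + 1 + k) = recSeq P s' (n + 1 + k) := by
  intro k
  induction k with
  | zero => exact h
  | succ k ih =>
    have e : n + 1 + (k + 1) = (n + k) + 2 := by omega
    have e' : n + 1 + k = (n + k) + 1 := by omega
    rw [e'] at ih
    rw [e, recSeq, recSeq, ih]

/-- the orbit of n + 1 goes down by ones to its first zero n + 2 -/
private theorem eoi_run (P : Polynomial ℤ) (n : ℕ)
    (hg : ∀ d : ℕ, 1 ≤ d → d ≤ n + 1 → IsCoprime (d : ℤ) (P.eval ((n + 3 : ℕ) : ℤ))) :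
    ∀ k, k ≤ n + 1 → recSeq P (n + 1) (k + 1) = ((n + 1 - k : ℕ) : ℤ) := by
  intro k
  induction k with
  | zero =>
    intro _
    rw [recSeq]
    simp
  | succ k ih =>
    intro hk
    have h1 := ih (by omega)
    have h2 : recSeq P (n + 1) (k + 1 + 1) = |recSeq P (n + 1) (k + 1) -
        (Int.gcd (recSeq P (n + 1) (k + 1)) (P.eval ((k + 2 : ℕ) : ℤ)) : ℤ)| := by
      rw [show k + 1 + 1 = k + 2 from rfl, recSeq]
    rw [h2, h1]
    set d : ℕ := n + 1 - k with hd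
    have hd1 : 1 ≤ d := by omega
    have h3 : (d : ℤ) ∣ P.eval ((n + 3 : ℕ) : ℤ) - P.eval ((k + 2 : ℕ) : ℤ) := by
      have := Polynomial.sub_dvd_eval_sub ((n + 3 : ℕ) : ℤ) ((k + 2 : ℕ) : ℤ) P
      have e : ((n + 3 : ℕ) : ℤ) - ((k + 2 : ℕ) : ℤ) = (d : ℤ) := by
        omega
      rwa [e] at this
    have h4 : IsCoprime (d : ℤ) (P.eval ((k + 2 : ℕ) : ℤ)) := by
      obtain ⟨q, hq⟩ := h3
      have h5 := hg d hd1 (by omega)
      have e : P.eval ((n + 3 : ℕ) : ℤ) = P.eval ((k + 2 : ℕ) : ℤ) + (d : ℤ) * q := by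
        linarith
      rw [e] at h5
      exact (IsCoprime.add_mul_left_right_iff).1 h5
    have h6 : Int.gcd (d : ℤ) (P.eval ((k + 2 : ℕ) : ℤ)) = 1 := Int.isCoprime_iff_gcd_eq_one.1 h4
    rw [h6]
    have h7 : ((n + 1 - (k + 1) : ℕ) : ℤ) = (d : ℤ) - 1 := by
      omega
    rw [h7, Nat.cast_one, abs_of_nonneg (by omega)]

/-- the prime values of a nonconstant polynomial without integer roots above 1 are large -/
private theorem eoi_growth (Q : Polynomial ℤ) (hd : 1 ≤ Q.natDegree)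
    (hroot : ∀ c : ℕ, 2 ≤ c → Q.eval (c : ℤ) ≠ 0) :
    ∃ N : ℕ, ∀ n : ℕ, N ≤ n → 0 < Q.eval ((n + 1 : ℕ) : ℤ) →
      (n : ℤ) ≤ Q.eval ((n + 1 : ℕ) : ℤ) := by
  rcases Nat.lt_or_ge 1 Q.natDegree with h2 | h1
  · -- degree at least 2
    let R : Polynomial ℝ := Q.map (Int.castRingHom ℝ)
    have hR : R.natDegree = Q.natDegree :=
      Polynomial.natDegree_map_eq_of_injective (RingHom.injective_int _) Q
    have hR0 : R ≠ 0 := by
      intro h0
      rw [h0, natDegree_zero] at hR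
      omega
    have hlt : (X : Polynomial ℝ).degree < R.degree := by
      rw [degree_X, Polynomial.degree_eq_natDegree hR0, hR]
      exact_mod_cast h2
    have ht := Polynomial.abs_div_tendsto_atTop_atTop_of_degree_gt R X hlt X_ne_zero
    have hev := (Filter.tendsto_atTop.1 ht 1).and (Filter.eventually_gt_atTop (0 : ℝ))
    obtain ⟨x0, hx0⟩ := Filter.eventually_atTop.1 hev
    obtain ⟨N, hN⟩ := exists_nat_ge x0
    refine ⟨N, fun n hn hpos => ?_⟩
    have hx : x0 ≤ ((n + 1 : ℕ) : ℝ) := by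
      have : (N : ℝ) ≤ (n : ℝ) := by exact_mod_cast hn
      push_cast
      linarith
    obtain ⟨h3, h4⟩ := hx0 _ hx
    rw [eval_X, abs_div, abs_of_pos h4, le_div_iff₀ h4, one_mul] at h3
    have h5 : R.eval ((n + 1 : ℕ) : ℝ) = ((Q.eval ((n + 1 : ℕ) : ℤ) : ℤ) : ℝ) := by
      have := Polynomial.eval_intCast_map (Int.castRingHom ℝ) Q ((n + 1 : ℕ) : ℤ)
      simpa [R] using this
    rw [h5, abs_of_pos (by exact_mod_cast hpos)] at h3
    have h6 : ((n + 1 : ℕ) : ℤ) ≤ Q.eval ((n + 1 : ℕ) : ℤ) := by exact_mod_cast h3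
    push_cast at h6 ⊢
    linarith
  · -- degree 1
    have hdeg : Q.natDegree = 1 := le_antisymm h1 hd
    have hQ := Polynomial.eq_X_add_C_of_natDegree_le_one h1
    set a := Q.coeff 1 with ha
    set b := Q.coeff 0 with hb
    have ha0 : a ≠ 0 := by
      intro h0
      rw [h0, C_0, zero_mul, zero_add] at hQ
      rw [hQ, natDegree_C] at hdeg
      omega
    have hev : ∀ y : ℤ, Q.eval y = a * y + b := by
      intro y
      rw [hQ]
      simp
    refine ⟨b.natAbs, fun n hn hpos => ?_⟩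
    rw [hev] at hpos ⊢
    have hn' : |b| ≤ (n : ℤ) := by
      rw [← Int.natCast_natAbs]
      exact_mod_cast hn
    have hb1 := neg_abs_le b
    have hb2 := le_abs_self b
    push_cast at hpos ⊢
    have hn0 : (0 : ℤ) ≤ n := by positivity
    rcases lt_trichotomy a 1 with h | h | h
    · have h7 : a ≤ -1 := by omega
      nlinarith
    · rw [h] at hpos ⊢
      by_contra hcon
      have h8 : b ≤ -2 := by linarith
      have h9 : ((b.natAbs : ℕ) : ℤ) = -b := by
        rw [Int.natCast_natAbs, abs_of_neg (by omega)]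
      refine hroot b.natAbs (by omega) ?_
      rw [hev, h9, h]
      ring
    · have h7 : 2 ≤ a := by omega
      nlinarith

private theorem eoi_coprime {p : ℤ} (hp : PosPrime p) {d : ℕ} (h1 : 1 ≤ d) (h2 : (d : ℤ) < p) :
    IsCoprime (d : ℤ) p := by
  rw [Int.isCoprime_iff_gcd_eq_one, Int.gcd_comm, Int.gcd_def, Int.natAbs_natCast]
  refine (Nat.Prime.coprime_iff_not_dvd hp.2).2 fun h => ?_
  have h3 := Nat.le_of_dvd (by omega) h
  have h4 := hp.1
  omega

/-- no good s for a family with an integer root above 1 -/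
private theorem eoi_root {m : ℕ} {Q : Fin m → Polynomial ℤ} (hirr : ∀ j, Irreducible (Q j))
    {c : ℕ} (hc : 2 ≤ c) (h0 : (∏ j, Q j).eval (c : ℤ) = 0) (s : ℕ) : ¬ Good m Q s := by
  intro hg
  rw [eval_prod, Finset.prod_eq_zero_iff] at h0
  obtain ⟨j, -, hj⟩ := h0
  obtain ⟨n, rfl⟩ : ∃ n, c = n + 2 := ⟨c - 2, by omega⟩
  have hz : recSeq (∏ j, Q j) s (n + 2) = 0 := by
    have h1 : (∏ j, Q j).eval ((n + 2 : ℕ) : ℤ) = 0 := by
      rw [eval_prod]
      exact Finset.prod_eq_zero (Finset.mem_univ j) hj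
    rw [recSeq, h1, Int.gcd_zero_right, Int.natCast_natAbs,
      abs_of_nonneg (eoi_nonneg (∏ j, Q j) s (n + 1))]
    simp
  have h2 := hg.2 (n + 2) hc hz j
  -- Q j is plus or minus X - c
  have h3 : (X - C ((n + 2 : ℕ) : ℤ)) ∣ Q j := Polynomial.dvd_iff_isRoot.2 hj
  obtain ⟨u, hu⟩ := h3
  rcases (hirr j).isUnit_or_isUnit hu with h4 | h4
  · have h5 := Polynomial.natDegree_eq_zero_of_isUnit h4
    rw [natDegree_X_sub_C] at h5
    omega
  · obtain ⟨r, hr, hru⟩ := Polynomial.isUnit_iff.1 h4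
    have h6 : (Q j).eval ((n + 2 + 1 : ℕ) : ℤ) = r := by
      rw [hu, ← hru]
      simp
    rw [h6] at h2
    rcases Int.isUnit_iff.1 hr with h7 | h7
    · rw [h7] at h2
      exact Nat.not_prime_one h2.2
    · rw [h7] at h2
      exact absurd h2.1 (by norm_num)

/-- the large zeros of a good orbit give new good starting values -/
private theorem eoi_good {m : ℕ} {Q : Fin m → Polynomial ℤ} (hdeg : ∀ j, 1 ≤ (Q j).natDegree)
    (hroot : ∀ c : ℕ, 2 ≤ c → (∏ j, Q j).eval (c : ℤ) ≠ 0) {s : ℕ} (hs : Good m Q s) :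
    ∃ N : ℕ, ∀ n : ℕ, N ≤ n → recSeq (∏ j, Q j) s n = 0 → Good m Q (n - 1) := by
  have h1 : ∀ j, ∃ N : ℕ, ∀ n : ℕ, N ≤ n → 0 < (Q j).eval ((n + 1 : ℕ) : ℤ) →
      (n : ℤ) ≤ (Q j).eval ((n + 1 : ℕ) : ℤ) := fun j =>
    eoi_growth (Q j) (hdeg j) fun c hc h0 => hroot c hc (by
      rw [eval_prod]
      exact Finset.prod_eq_zero (Finset.mem_univ j) h0)
  choose N hN using h1
  refine ⟨2 + ∑ j, N j, fun n hn hz => ?_⟩
  obtain ⟨k, rfl⟩ : ∃ k, n = k + 2 := ⟨n - 2, by omega⟩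
  have hp := hs.2 (k + 2) (by omega) hz
  have hrun := eoi_run (∏ j, Q j) k (fun d hd1 hd2 => by
    rw [eval_prod]
    refine IsCoprime.prod_right fun j _ => ?_
    have h2 := hp j
    have h3 : N j ≤ k + 2 := by
      have := Finset.single_le_sum (f := N) (fun _ _ => Nat.zero_le _) (Finset.mem_univ j)
      omega
    have h4 := hN j (k + 2) h3 h2.1
    refine eoi_coprime h2 hd1 ?_
    push_cast at h4 ⊢
    have h5 : (d : ℤ) ≤ k + 1 := by exact_mod_cast hd2
    linarith)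
  have hz' : recSeq (∏ j, Q j) (k + 1) (k + 2) = 0 := by
    have := hrun (k + 1) le_rfl
    simpa using this
  have e : k + 2 - 1 = k + 1 := rfl
  rw [e]
  refine ⟨eoi_inf _ _, fun i hi h0 j => ?_⟩
  rcases Nat.lt_or_ge i (k + 2) with h6 | h6
  · exfalso
    obtain ⟨l, rfl⟩ : ∃ l, i = l + 1 := ⟨i - 1, by omega⟩
    rw [hrun l (by omega)] at h0
    have : (k + 1 - l : ℕ) = 0 := by exact_mod_cast h0
    omega
  · obtain ⟨l, rfl⟩ : ∃ l, i = k + 1 + 1 + l := ⟨i - (k + 2), by omega⟩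
    have h7 := eoi_tail (∏ j, Q j) (k + 1) s (k + 1) (hz'.trans hz.symm) l
    exact hs.2 _ hi (h7 ▸ h0) j

/-- For every family Q as in the problem, with product P: every S_s has infinitely many zeros; if P
has an integer root c at least 2 then no positive s is good; if P has no such root then the set of
good positive s is empty or infinite: from one good s one gets the good values n - 1, for all
sufficiently large zeros n of S_s. For every c at least 2 the family consisting of x - c satisfies the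
hypotheses, so the first case occurs. -/
theorem result :
    (∀ (m : ℕ) (Q : Fin m → Polynomial ℤ), Adm m Q →
      (∀ s : ℕ, 0 < s → ∀ N : ℕ, ∃ n : ℕ, N ≤ n ∧ recSeq (∏ j, Q j) s n = 0) ∧
      ((∃ c : ℕ, 2 ≤ c ∧ (∏ j, Q j).eval (c : ℤ) = 0) → ∀ s : ℕ, 0 < s → ¬ Good m Q s) ∧
      ((∀ c : ℕ, 2 ≤ c → (∏ j, Q j).eval (c : ℤ) ≠ 0) →
        (∀ s : ℕ, 0 < s → Good m Q s → ∃ N : ℕ, ∀ n : ℕ, N ≤ n → recSeq (∏ j, Q j) s n = 0 →
          Good m Q (n - 1)) ∧
        ({s : ℕ | 0 < s ∧ Good m Q s} = ∅ ∨ {s : ℕ | 0 < s ∧ Good m Q s}.Infinite))) ∧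
    ∀ c : ℕ, 2 ≤ c → Adm 1 (fun _ => X - C (c : ℤ)) ∧ (X - C (c : ℤ)).eval (c : ℤ) = 0 := by
  refine ⟨fun m Q hQ => ⟨fun s _ N => ?_, ?_, fun hroot => ⟨fun s _ hs =>
    eoi_good hQ.deg hroot hs, ?_⟩⟩, fun c hc => ⟨⟨le_rfl, fun _ => ?_, fun _ => ?_, fun K => ?_⟩, ?_⟩⟩
  · obtain ⟨n, h1, -, h2⟩ := eoi_inf (∏ j, Q j) s N
    exact ⟨n, h1, h2⟩
  · rintro ⟨c, hc, h0⟩ s _
    exact eoi_root hQ.irr hc h0 s
  · rcases Set.eq_empty_or_nonempty {s : ℕ | 0 < s ∧ Good m Q s} with h | ⟨s, hs0, hs⟩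
    · exact Or.inl h
    · refine Or.inr (Set.infinite_of_not_bddAbove ?_)
      rintro ⟨B, hB⟩
      obtain ⟨N, hN⟩ := eoi_good hQ.deg hroot hs
      obtain ⟨n, h1, -, h2⟩ := eoi_inf (∏ j, Q j) s (N + B + 2)
      have h3 := hB ⟨by omega, hN n (by omega) h2⟩
      omega
  · exact Polynomial.irreducible_X_sub_C _
  · exact le_of_eq (natDegree_X_sub_C (c : ℤ)).symm
  · obtain ⟨p, hp, hpp⟩ := Nat.exists_infinite_primes K
    refine ⟨p + c, by omega, by omega, fun _ => ?_⟩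
    have : (X - C (c : ℤ)).eval ((p + c : ℕ) : ℤ) = (p : ℤ) := by
      simp
    unfold PosPrime
    rw [this]
    exact ⟨by exact_mod_cast hpp.pos, by simpa using hpp⟩
  · simp

end Pool.Agent.Results.MP_e68b86_nt.EmptyOrInfinite
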